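import Mathlib
import Pool.Agent.Helper75.Trv.Char
import Pool.Agent.Helper75.Trv.Super
import Pool.Agent.Helper75.Trv.Appr

set_option autoImplicit false

/-!
`l⁺`-transversals of families of `κ` sets of power `κ` with `δ(𝒜) ≤ l`, under GCH
(problem MP_23241f_lc): an exact criterion for each pair `(κ, l)`, the positive answer from
approachability, and the negative answer from a supercompact cardinal.
-/

open Cardinal Ordinal Set Order

universe u

namespace Pool.Agent.Results.MP_23241f_lc.CriterionAndBothAnswers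

open Pool.Agent.Helper61 Pool.Agent.Helper75.Trv

/-- Assume GCH.

1. Let `κ` be an infinite cardinal and `l` any cardinal. Every family of `κ` sets of power `κ` with
degree of disjunction `≤ l` has an `l⁺`-transversal, if and only if it is not the case that
`κ = η⁺` with `ℵ₀ ≤ l < η`, `cof l = cof η`, and that there are a stationary set `S ⊆ κ` and sets
`C δ ⊆ δ` (`δ ∈ S`) of size `l⁺` any two of which meet in fewer than `l` points.

2. If `ℵ₀ ≤ l < η`, `cof l = cof η` and `η⁺` has the approachability property at points of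
cofinality `l⁺`, then every family of `η⁺` sets of power `η⁺` with degree of disjunction `≤ l` has
an `l⁺`-transversal.

3. If `cof η < κ₀ < η` and `κ₀` is `η⁺`-supercompact, then there is an infinite cardinal `l < κ₀`
with `cof l = cof η` and a family of `η⁺` sets of power `η⁺` with degree of disjunction `≤ l` that
has no `l⁺`-transversal. -/
theorem result (gch : GCH.{u}) :
    (∀ κ l : Cardinal.{u}, ℵ₀ ≤ κ →
      (HasTransversals κ l ↔
        ¬ ∃ η : Cardinal.{u}, κ = succ η ∧ ℵ₀ ≤ l ∧ l < η ∧ l.ord.cof = η.ord.cof ∧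
          StationaryAlmostDisjoint κ l)) ∧
    (∀ η l : Cardinal.{u}, ℵ₀ ≤ l → l < η → l.ord.cof = η.ord.cof → Approachable (succ η) l →
      HasTransversals (succ η) l) ∧
    (∀ η κ₀ : Cardinal.{u}, ℵ₀ < κ₀ → κ₀ < η → η.ord.cof < κ₀ →
      (∃ U : Ultrafilter (Set (succ η).ord.ToType), IsNormalMeasure κ₀ U) →
      ∃ l < κ₀, ℵ₀ ≤ l ∧ l.ord.cof = η.ord.cof ∧ ¬ HasTransversals (succ η) l) := by
  refine ⟨fun κ l hκ => Char.hasTransversals_iff gch κ l hκ, ?_, ?_⟩
  · intro η l hl hlη hcof hap
    rw [Char.hasTransversals_iff gch (succ η) l ((hl.trans hlη.le).trans (Order.le_succ η))]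
    rintro ⟨η', h1, -, -, -, hsad⟩
    exact not_sad_of_approachable gch η l hl hlη hcof hap hsad
  · rintro η κ₀ h0 hκ hcof ⟨U, hU⟩
    obtain ⟨l, hl, hlκ, hlcof, hsad⟩ := sad_of_normalMeasure gch η κ₀ h0 hκ hcof U hU
    exact ⟨l, hlκ, hl, hlcof,
      not_hasTransversals_of_sad gch η l hl (hlκ.trans hκ) hlcof hsad⟩

end Pool.Agent.Results.MP_23241f_lc.CriterionAndBothAnswers
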